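import Pool.Agent.P.MP_0f25e6_al.VT.Main

/-!
The strong Atiyah conjecture and the analytic zero divisor conjecture for all torsion-free groups
that are built from finite groups by iterated actions on trees, passage to overgroups of finite
index, and directed unions.
-/

set_option autoImplicit false

namespace Pool.Agent.Results.MP_0f25e6_al.VirtualHierarchy

universe u

/-- The statement of Q1 for one group `G`: a nonzero finitely supported `α` and a nonzero
square-summable `f` have nonzero convolution. -/
def AnalyticZD (G : Type u) [Group G] : Prop :=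
  ∀ (α : G →₀ ℂ) (f : G → ℂ), α ≠ 0 → Memℓp f 2 → f ≠ 0 →
    ∃ g : G, ∑ k ∈ α.support, α k * f (k⁻¹ * g) ≠ 0

/-- The kernel of an `m × n` matrix `A` over the complex group ring, acting by left convolution
on the square-summable functions on `G × Fin n`. -/
def matKer {G : Type u} [Group G] {m n : ℕ} (A : Fin m → Fin n → G →₀ ℂ) :
    Set (G × Fin n → ℂ) :=
  {f | Memℓp f 2 ∧ ∀ (g : G) (i : Fin m),
    ∑ j : Fin n, ∑ k ∈ (A i j).support, A i j k * f (k⁻¹ * g, j) = 0}

/-- `p` is the orthogonal projection onto `W` of the basis vector at `x`: it lies in `W`, and has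
the same inner product as the basis vector with every element of `W`. -/
def IsProjBasis {X : Type u} (W : Set (X → ℂ)) (x : X) (p : X → ℂ) : Prop :=
  p ∈ W ∧ ∀ w ∈ W, ∑' y, starRingEnd ℂ (w y) * p y = starRingEnd ℂ (w x)

/-- The strong Atiyah conjecture over `ℂ` in its form for torsion-free groups: the kernel of
every matrix over the complex group ring has integer von Neumann dimension, the dimension being
the sum of the diagonal entries at `(1, j)` of the orthogonal projection onto the kernel. -/
def StrongAtiyah (G : Type u) [Group G] : Prop :=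
  ∀ (m n : ℕ) (A : Fin m → Fin n → G →₀ ℂ), ∃ (p : Fin n → G × Fin n → ℂ) (d : ℕ),
    (∀ j, IsProjBasis (matKer A) (1, j) (p j)) ∧ ∑ j, p j (1, j) = d

/-- The smallest class of groups that contains the finite groups, contains every group `G` acting
by automorphisms on a tree in such a way that each subgroup of `G` stabilising a vertex or an
unoriented edge is in the class, contains every group that has a subgroup of finite index in the
class, and contains every group all of whose finitely generated subgroups are in the class. -/
inductive VTH : (G : Type u) → [Group G] → Prop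
  | finite (G : Type u) [Group G] [Finite G] : VTH G
  | tree (G V : Type u) [Group G] [MulAction G V] (T : SimpleGraph V) (hT : T.IsTree)
      (hadj : ∀ (g : G) (u v : V), T.Adj u v → T.Adj (g • u) (g • v))
      (hstab : ∀ (H : Subgroup G) (u v : V), u = v ∨ T.Adj u v →
        (∀ h ∈ H, s(h • u, h • v) = s(u, v)) → VTH H) : VTH G
  | virt (G : Type u) [Group G] (H : Subgroup G) [H.FiniteIndex] (hH : VTH H) : VTH G
  | loc (G : Type u) [Group G] (hG : ∀ H : Subgroup G, H.FG → VTH H) : VTH G

open Pool.Agent.P.MP_0f25e6_al Pool.Agent.P.MP_0f25e6_al.HN in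
theorem strongAtiyah_iff (G : Type u) [Group G] : StrongAtiyah G ↔ SAC G := by
  constructor
  · intro hG
    refine MatSAC.sac (fun m n A W hW => ?_)
    obtain ⟨p, d, hp, hd⟩ := hG m n A
    have h1 : ∀ j, proj W (delta (1, j)) = ⟨p j, (hp j).1.1⟩ := fun j =>
      proj_delta_eq ((hW _).2 (hp j).1.2) (fun w hw => (hp j).2 w ⟨w.2, (hW w).1 hw⟩)
    refine ⟨d, Complex.ofReal_injective ?_⟩
    rw [Complex.ofReal_sum, Complex.ofReal_natCast, ← hd]
    exact Finset.sum_congr rfl (fun j _ => by rw [← proj_delta_apply, h1])
  · intro hG m n A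
    obtain ⟨W, hc, hW⟩ := exists_matKer A
    obtain ⟨d, hd⟩ := hG.mat m n A W hW
    refine ⟨fun j => proj W (delta (1, j)), d, fun j => ⟨⟨(proj W (delta (1, j))).2,
      (hW _).1 (cl_le le_rfl hc (proj_mem W _))⟩,
      fun w hw => proj_delta_spec W _ ⟨w, hw.1⟩ ((hW _).2 hw.2)⟩, ?_⟩
    rw [← Complex.ofReal_natCast, ← hd, Complex.ofReal_sum]
    exact Finset.sum_congr rfl (fun j _ => proj_delta_apply W _)

open Pool.Agent.P.MP_0f25e6_al Pool.Agent.P.MP_0f25e6_al.HN in
/-- Every torsion-free group in the class `VTH` satisfies the strong Atiyah conjecture and the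
analytic zero divisor conjecture. -/
theorem result {G : Type u} [Group G] (hG : VTH G)
    (htf : ∀ (g : G) (k : ℕ), 0 < k → g ^ k = 1 → g = 1) : StrongAtiyah G ∧ AnalyticZD G := by
  have h : VT.PC G := by
    clear htf
    induction hG with
    | finite G => exact VT.pc_finite
    | tree G V T hT hadj _ ih => exact VT.pc_tree VT.ppt hT hadj ih
    | virt G H _ ih => exact VT.pc_virt H ih
    | loc G _ ih => exact VT.pc_loc VT.ppt ih
  exact ⟨(strongAtiyah_iff G).2 (h.sac htf), azd_of_inj (h.sac htf).inj⟩

end Pool.Agent.Results.MP_0f25e6_al.VirtualHierarchy
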